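import Mathlib
import Pool.Agent.AEI.FIN

set_option autoImplicit false

namespace Pool.Agent.Results.MP_57825d_lc.AlmostEverywhere

open Nat.Partrec MeasureTheory Pool.Agent.H19

/-- Condition (i): the operator with code `r` is a solution to Post's problem at every oracle,
`X <_T W_r^X <_T X'`. -/
def SolvesPost (r : Code) : Prop :=
  ∀ X : ℕ → Bool,
    TuringReducible (chr {n | X n = true}) (chr (opSet r X)) ∧
    ¬ TuringReducible (chr (opSet r X)) (chr {n | X n = true}) ∧
    TuringReducible (chr (opSet r X)) (chr (jumpSet X)) ∧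
    ¬ TuringReducible (chr (jumpSet X)) (chr (opSet r X))

/-- `A ≡_T B`. -/
def SameDegree (A B : Set ℕ) : Prop :=
  TuringReducible (chr A) (chr B) ∧ TuringReducible (chr B) (chr A)

/-- Condition (ii) at `X`: every `Y ≡_T X` has `W_r^Y ≡_T W_r^X`. -/
def InvariantAt (r : Code) (X : ℕ → Bool) : Prop :=
  ∀ Y : ℕ → Bool, SameDegree {m | Y m = true} {m | X m = true} →
    SameDegree (opSet r Y) (opSet r X)

/-- The join `X ⊕ Y`. -/
def join (X Y : ℕ → Bool) : ℕ → Bool := fun n => if n % 2 = 0 then X (n / 2) else Y (n / 2)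

open Classical in
/-- The `n`-th iterate `∅^(n)` of the jump of the empty set. -/
noncomputable def zeroJump : ℕ → ℕ → Bool
  | 0 => fun _ => false
  | n + 1 => fun p => decide (p ∈ jumpSet (zeroJump n))

/-- The fair coin measure on infinite binary sequences. -/
noncomputable def coin : Measure (ℕ → Bool) :=
  Measure.infinitePi fun _ : ℕ => (PMF.uniformOfFintype Bool).toMeasure

/-- The sets `P n` are `Π_2` singletons, uniformly in `n`: there are uniformly computable tests
such that `P n` is the only `Q` for which every test `t n m` succeeds at infinitely many initial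
segments of `Q`. -/
def UniformPi2 (P : ℕ → ℕ → Bool) : Prop :=
  ∃ t : ℕ → ℕ → List Bool → Bool, Computable (fun x : ℕ × (ℕ × List Bool) => t x.1 x.2.1 x.2.2) ∧
    ∀ (n : ℕ) (Q : ℕ → Bool),
      (∀ m N, ∃ s ≥ N, t n m ((List.range s).map Q) = true) ↔ Q = P n

/-- Of any two different members of the family one computes the jump of the other. -/
def JumpComparable (P : ℕ → ℕ → Bool) : Prop :=
  ∀ n m, n ≠ m → TuringReducible (chr (jumpSet (P n))) (chr {k | P m k = true}) ∨
    TuringReducible (chr (jumpSet (P m))) (chr {k | P n k = true})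

theorem chr_seq (X : ℕ → Bool) : chr {n | X n = true} = chi X := chr_eq_chi fun _ => Iff.rfl

theorem zeroJump_eq (n : ℕ) : zeroJump n = AEI.zj n := by
  induction n with
  | zero => rfl
  | succ n ih =>
    funext p
    have h1 : zeroJump (n + 1) p = true ↔ p ∈ jumpSet (zeroJump n) := by simp [zeroJump]
    rw [Bool.eq_iff_iff, h1, ih, AEI.zj, AEI.JJ_iff]
    exact exists_cvg

theorem general {P : ℕ → ℕ → Bool} {t : ℕ → ℕ → List Bool → Bool} (hF : AEI.Fam t P) :
    ∃ r : Code, SolvesPost r ∧ ∀ n : ℕ, ∀ᵐ X ∂coin, InvariantAt r (join X (P n)) := by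
  obtain ⟨r, hr, hae⟩ := AEI.main_ae hF
  have hW : ∀ X, chr (opSet r X) = chi (AEI.WF t X) := fun X => chr_eq_chi (hr X)
  refine ⟨r, fun X => ⟨?_, ?_, ?_, ?_⟩, fun n => ?_⟩
  · rw [hW, chr_seq]
    exact AEI.left_le_jn _ _
  · rw [hW, chr_seq]
    exact (AEI.WF_post hF X).1
  · rw [hW, AEI.chr_jumpSet]
    exact AEI.code_le_JJ (hr X)
  · rw [hW, AEI.chr_jumpSet]
    exact (AEI.WF_post hF X).2
  · filter_upwards [hae n] with X hX Y hY
    obtain ⟨h1, h2⟩ := hY
    rw [chr_seq, chr_seq] at h1 h2
    obtain ⟨h3, h4⟩ := hX Y h2 h1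
    refine ⟨?_, ?_⟩
    · rw [hW, hW]; exact h3
    · rw [hW, hW]; exact h4

theorem invariantAt_of {r : Code} {X : ℕ → Bool} (h : InvariantAt r (join X (zeroJump 0))) :
    InvariantAt r X := by
  have e1 : SameDegree {m | X m = true} {m | join X (zeroJump 0) m = true} := by
    constructor
    · rw [chr_seq, chr_seq]
      exact AEI.left_le_jn _ _
    · rw [chr_seq, chr_seq]
      refine AEI.jn_le (TuringReducible.refl _) ?_
      exact turingReducible_of_computable (F := fun _ _ => false) (g := fun _ => 0)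
        (Computable.const false) (Computable.const 0) fun _ => rfl
  intro Y hY
  have h1 := h Y ⟨hY.1.trans e1.1, e1.2.trans hY.2⟩
  have h2 := h X e1
  exact ⟨h1.1.trans h2.2, h2.1.trans h1.2⟩

/-- Let `P n` be uniformly `Π_2` singletons such that of any two of them one computes the jump of
the other. There is an operator `W_r` which solves Post's problem at every oracle and which is,
for every `n`, degree invariant at `X ⊕ P n` for almost every `X`. -/
theorem result (P : ℕ → ℕ → Bool) (hP : UniformPi2 P) (hJ : JumpComparable P) :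
    ∃ r : Code, SolvesPost r ∧ ∀ n : ℕ, ∀ᵐ X ∂coin, InvariantAt r (join X (P n)) := by
  obtain ⟨t, h1, h2⟩ := hP
  refine general (t := t) ⟨h1, h2, fun n m hnm => ?_⟩
  have h3 := hJ n m hnm
  rwa [AEI.chr_jumpSet, AEI.chr_jumpSet, chr_seq, chr_seq] at h3

/-- The case of the finite jumps: there is an operator `W_r` which solves Post's problem at every
oracle, is degree invariant at almost every `X`, and is, for every `n`, degree invariant at
`X ⊕ ∅^(n)` for almost every `X`. -/
theorem finite_jumps : ∃ r : Code, SolvesPost r ∧ (∀ᵐ X ∂coin, InvariantAt r X) ∧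
      ∀ n : ℕ, ∀ᵐ X ∂coin, InvariantAt r (join X (zeroJump n)) := by
  have hP : UniformPi2 zeroJump := by
    refine ⟨AEI.jt, AEI.fam_zj.comp, fun n Q => ?_⟩
    rw [zeroJump_eq]
    exact AEI.fam_zj.spec n Q
  have hJ : JumpComparable zeroJump := by
    intro n m hnm
    rw [AEI.chr_jumpSet, AEI.chr_jumpSet, chr_seq, chr_seq, zeroJump_eq, zeroJump_eq]
    exact AEI.fam_zj.jump n m hnm
  obtain ⟨r, h1, h2⟩ := result zeroJump hP hJ
  refine ⟨r, h1, ?_, h2⟩
  filter_upwards [h2 0] with X hX
  exact invariantAt_of hX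

end Pool.Agent.Results.MP_57825d_lc.AlmostEverywhere
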