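import Mathlib
import Pool.Agent.CMG.GFN

set_option autoImplicit false

namespace Pool.Agent.Results.MP_57825d_lc.Comeager

open Nat.Partrec Pool.Agent.H19

/-- Condition (i): the operator with code `r` is a solution to Post's problem at every oracle,
`X <_T W_r^X <_T X'`. -/
def SolvesPost (r : Code) : Prop :=
  ∀ X : ℕ → Bool,
    TuringReducible (chr {n | X n = true}) (chr (opSet r X)) ∧
    ¬ TuringReducible (chr (opSet r X)) (chr {n | X n = true}) ∧
    TuringReducible (chr (opSet r X)) (chr (jumpSet X)) ∧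
    ¬ TuringReducible (chr (jumpSet X)) (chr (opSet r X))

/-- `A ≡_T B`. -/
def SameDegree (A B : Set ℕ) : Prop :=
  TuringReducible (chr A) (chr B) ∧ TuringReducible (chr B) (chr A)

/-- Condition (ii) at `X`: every `Y ≡_T X` has `W_r^Y ≡_T W_r^X`. -/
def InvariantAt (r : Code) (X : ℕ → Bool) : Prop :=
  ∀ Y : ℕ → Bool, SameDegree {m | Y m = true} {m | X m = true} →
    SameDegree (opSet r Y) (opSet r X)

theorem chr_seq (X : ℕ → Bool) : chr {n | X n = true} = chi X := chr_eq_chi fun _ => Iff.rfl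

/-- There is an operator `W_r` which solves Post's problem at every oracle and which is degree
invariant at comeager many `X`. -/
theorem result : ∃ r : Code, SolvesPost r ∧ ∀ᶠ X in residual (ℕ → Bool), InvariantAt r X := by
  obtain ⟨r, hr, h2, h3, h4⟩ := CMG.main_gen
  have hW : ∀ X, chr (opSet r X) = chi (CMG.WX CMG.gsys X) := fun X => chr_eq_chi (hr X)
  refine ⟨r, fun X => ⟨?_, ?_, ?_, ?_⟩, ?_⟩
  · rw [hW, chr_seq]
    exact AEI.left_le_jn _ _
  · rw [hW, chr_seq]
    exact h2 X
  · rw [hW, AEI.chr_jumpSet]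
    exact AEI.code_le_JJ (hr X)
  · rw [hW, AEI.chr_jumpSet]
    exact h3 X
  · filter_upwards [h4] with X hX Y hY
    obtain ⟨h5, h6⟩ := hY
    rw [chr_seq, chr_seq] at h5 h6
    obtain ⟨h7, h8⟩ := hX Y h5 h6
    refine ⟨?_, ?_⟩
    · rw [hW, hW]; exact h7
    · rw [hW, hW]; exact h8

end Pool.Agent.Results.MP_57825d_lc.Comeager
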