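import Mathlib
import Pool.Agent.OMP.FIN
import Pool.Agent.H19.Bounded
import Pool.Agent.OMP.TWO

set_option autoImplicit false

namespace Pool.Agent.Results.MP_57825d_lc.OneMap

open Encodable Nat.Partrec Pool.Agent.H19

/-- Condition (i): the operator with code `r` is a solution to Post's problem at every oracle,
`X <_T W_r^X <_T X'`. -/
def SolvesPost (r : Code) : Prop :=
  ∀ X : ℕ → Bool,
    TuringReducible (chr {n | X n = true}) (chr (opSet r X)) ∧
    ¬ TuringReducible (chr (opSet r X)) (chr {n | X n = true}) ∧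
    TuringReducible (chr (opSet r X)) (chr (jumpSet X)) ∧
    ¬ TuringReducible (chr (jumpSet X)) (chr (opSet r X))

/-- `A ≡_T B`. -/
def SameDegree (A B : Set ℕ) : Prop :=
  TuringReducible (chr A) (chr B) ∧ TuringReducible (chr B) (chr A)

/-- The functional with code `c` maps `X` to `Y`. -/
def Computes (c : Code) (X Y : ℕ → Bool) : Prop :=
  IsReduction c {n | Y n = true} {n | X n = true}

/-- The `Π₂` class of the test `t`: the test is true at infinitely many initial segments. -/
def InClass (t : List Bool → Bool) (X : ℕ → Bool) : Prop := ∀ N, ∃ s ≥ N, t (pre X s) = true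

theorem chr_seq (X : ℕ → Bool) : chr {n | X n = true} = chi X := chr_eq_chi fun _ => Iff.rfl

theorem codeComputes_of {c : Code} {X Y : ℕ → Bool} (h : Computes c X Y) : CodeComputes c X Y := by
  have h' : IsReduction c {n | Y n = true} {n | X n = true} := h
  unfold IsReduction at h'
  rw [toSeq_setOf] at h'
  refine ⟨fun n s v hv => ?_, fun n => ?_⟩
  · rw [(h' n).2 s v hv]
    exact @ite_iff _ _ (_) (_) Iff.rfl
  · obtain ⟨s, hs⟩ := (h' n).1
    refine ⟨s, ?_⟩
    convert hs using 1
    exact @ite_iff _ _ (_) (_) Iff.rfl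

theorem maps_of_computes {c : Code} {X Y : ℕ → Bool} (h : Computes c X Y) :
    Maps (CMG.fn (encode c)) X Y := by
  obtain ⟨h2, h3⟩ := AEI.zf_of_computes (codeComputes_of h)
  have e : CMG.fn (encode c) = AEI.zf c := by
    funext σ
    rw [CMG.fn, Denumerable.ofNat_encode]
  rw [e]
  exact CMG.maps_of h2 h3

/-- The conclusion in terms of string functionals. -/
theorem main (e : ℕ) {t : List Bool → Bool} (ht : Computable t)
    (hD : ∀ X, InClass t X → ∃ Y, Maps (CMG.fn e) X Y ∧ TuringReducible (chi X) (chi Y)) :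
    ∃ r : Code, SolvesPost r ∧ ∀ X Y : ℕ → Bool, InClass t X → Maps (CMG.fn e) X Y →
      SameDegree (opSet r Y) (opSet r X) := by
  obtain ⟨r, W, hr, h1, h2, h3, h4⟩ := OMP.one_map e ht hD
  have hW : ∀ X, chr (opSet r X) = chi (W X) := fun X => chr_eq_chi (hr X)
  refine ⟨r, fun X => ⟨?_, ?_, ?_, ?_⟩, fun X Y hX hY => ?_⟩
  · rw [hW, chr_seq]
    exact h1 X
  · rw [hW, chr_seq]
    exact h2 X
  · rw [hW, AEI.chr_jumpSet]
    exact AEI.code_le_JJ (hr X)
  · rw [hW, AEI.chr_jumpSet]
    exact h3 X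
  · obtain ⟨h5, h6⟩ := h4 X Y hX hY
    refine ⟨?_, ?_⟩
    · rw [hW, hW]; exact h6
    · rw [hW, hW]; exact h5

/-- For every functional `c` and every lightface `Π₂` class on which it is defined and maps each
sequence to a Turing equivalent one, there is one index `r` such that `W_r` solves Post's problem at
every oracle and `W_r^X ≡_T W_r^Y` for every `X` in the class and its image `Y`. -/
theorem result (c : Code) (t : List Bool → Bool) (ht : Computable t)
    (h : ∀ X, InClass t X → ∃ Y, Computes c X Y ∧ SameDegree {n | Y n = true} {n | X n = true}) :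
    ∃ r : Code, SolvesPost r ∧ ∀ X Y : ℕ → Bool, InClass t X → Computes c X Y →
      SameDegree (opSet r Y) (opSet r X) := by
  obtain ⟨r, h1, h2⟩ := main (encode c) ht fun X hX => by
    obtain ⟨Y, hY, hd⟩ := h X hX
    refine ⟨Y, maps_of_computes hY, ?_⟩
    have h3 := hd.2
    rwa [chr_seq, chr_seq] at h3
  exact ⟨r, h1, fun X Y hX hY => h2 X Y hX (maps_of_computes hY)⟩

/-- In particular the answer to Q1 is positive for every single pair of reductions `c`, `d`. -/
theorem pair (c d : Code) : ∃ r : Code, SolvesPost r ∧ ∀ X Y : ℕ → Bool,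
    Computes c X Y → Computes d Y X → SameDegree (opSet r Y) (opSet r X) := by
  obtain ⟨t, ht, hs⟩ := OMP.P2f.fix (α := ℕ) (l := fun _ => [encode c, encode d]) (Computable.const _)
  have ht0 : Computable (t 0) := ht.comp (Computable.const 0) Computable.id
  have hi : ∀ X : ℕ → Bool, InClass (t 0) X ↔ Maps (CMD.fnl [encode c, encode d]) X X :=
    fun X => (hs 0 X).symm
  obtain ⟨r, h1, h2⟩ := main (encode c) ht0 fun X hX => by
    rw [hi, CMD.maps_cons_iff] at hX
    obtain ⟨Y, hY, hd⟩ := hX
    exact ⟨Y, hY, CMD.red_fnl hd⟩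
  refine ⟨r, h1, fun X Y hX hY => h2 X Y ?_ (maps_of_computes hX)⟩
  rw [hi, CMD.maps_cons_iff]
  exact ⟨Y, maps_of_computes hX, CMD.maps_one_iff.2 (maps_of_computes hY)⟩

/-- In particular it is positive for every total functional which preserves the degree. -/
theorem total (c : Code)
    (h : ∀ X : ℕ → Bool, ∃ Y, Computes c X Y ∧ SameDegree {n | Y n = true} {n | X n = true}) :
    ∃ r : Code, SolvesPost r ∧ ∀ X Y : ℕ → Bool, Computes c X Y → SameDegree (opSet r Y) (opSet r X) := by
  obtain ⟨r, h1, h2⟩ := result c (fun _ => true) (Computable.const true) fun X _ => h X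
  exact ⟨r, h1, fun X Y hXY => h2 X Y (fun N => ⟨N, le_rfl, rfl⟩) hXY⟩

/-- `W_r` is invariant along the pair of reductions `c`, `d`. -/
def AlongPair (r c d : Code) : Prop := ∀ X Y : ℕ → Bool,
  Computes c X Y → Computes d Y X → SameDegree (opSet r Y) (opSet r X)

/-- Condition (ii): `W_r` is degree invariant. -/
def Invariant (r : Code) : Prop := ∀ X Y : ℕ → Bool,
  SameDegree {n | Y n = true} {n | X n = true} → SameDegree (opSet r Y) (opSet r X)

theorem computes_of {c : Code} {X Y : ℕ → Bool} (h : CodeComputes c X Y) : Computes c X Y := by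
  unfold Computes IsReduction
  intro n
  rw [toSeq_setOf]
  refine ⟨?_, fun s v hv => ?_⟩
  · obtain ⟨s, hs⟩ := h.2 n
    refine ⟨s, ?_⟩
    convert hs using 1
    exact @ite_iff _ _ (_) (_) Iff.rfl
  · rw [h.1 n s v hv]
    exact @ite_iff _ _ (_) (_) Iff.rfl

/-- Two explicit pairs of reductions are as hard as all pairs. -/
theorem two_pairs : ∃ c₁ d₁ c₂ d₂ : Code,
    (∃ r, SolvesPost r ∧ AlongPair r c₁ d₁ ∧ AlongPair r c₂ d₂) ↔
      ∃ r, SolvesPost r ∧ Invariant r := by
  obtain ⟨c₁, d₁, c₂, d₂, hp⟩ := OMP.TWO.exists_pairs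
  refine ⟨c₁, d₁, c₂, d₂, ?_, ?_⟩
  · rintro ⟨r, hr, h1, h2⟩
    obtain ⟨r', hr'⟩ := OMP.TWO.exists_shift false r
    have hop : ∀ X, opSet r' X = opSet r (OMP.TWO.cn false X) := fun X => Set.ext fun n => hr' X n
    refine ⟨r', fun X => ?_, fun X Y hXY => ?_⟩
    · obtain ⟨a1, a2, a3, a4⟩ := hr (OMP.TWO.cn false X)
      rw [chr_seq] at a1 a2
      rw [AEI.chr_jumpSet] at a3 a4
      rw [hop, chr_seq, AEI.chr_jumpSet]
      exact ⟨(OMP.TWO.le_cn false X).trans a1, fun h => a2 (h.trans (OMP.TWO.le_cn false X)),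
        a3.trans (OMP.TWO.JJ_cn_le false X), fun h => a4 ((OMP.TWO.JJ_cn_le false X).trans h)⟩
    · rw [hop, hop]
      have hd := hXY
      unfold SameDegree at hd
      rw [chr_seq, chr_seq] at hd
      refine hp (fun U V => SameDegree (opSet r V) (opSet r U)) (fun U => ⟨TuringReducible.refl _,
        TuringReducible.refl _⟩) (fun U V Z h3 h4 => ⟨h4.1.trans h3.1, h3.2.trans h4.2⟩)
        (fun U V h3 => ⟨h3.2, h3.1⟩) (fun U V h3 h4 => h1 U V (computes_of h3) (computes_of h4))
        (fun U V h3 h4 => h2 U V (computes_of h3) (computes_of h4)) X Y hd.2 hd.1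
  · rintro ⟨r, hr, hi⟩
    have key : ∀ c d, AlongPair r c d := by
      intro c d X Y hX hY
      exact hi X Y ⟨turingReducible_iff_isReduction.2 ⟨c, hX⟩,
        turingReducible_iff_isReduction.2 ⟨d, hY⟩⟩
    exact ⟨r, hr, key _ _, key _ _⟩

end Pool.Agent.Results.MP_57825d_lc.OneMap
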