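import Mathlib
import Pool.Agent.RJ.GJK

set_option autoImplicit false

namespace Pool.Agent.Results.MP_57825d_lc.RandomJoins

open Nat.Partrec MeasureTheory Pool.Agent.H19

/-- The set coded by a sequence. -/
def toSet (X : ℕ → Bool) : Set ℕ := {n | X n = true}

/-- `A ≡_T B`. -/
def SameDegree (A B : Set ℕ) : Prop :=
  TuringReducible (chr A) (chr B) ∧ TuringReducible (chr B) (chr A)

/-- `X ≤_T W_r^X`. -/
def AboveAt (r : Code) (X : ℕ → Bool) : Prop :=
  TuringReducible (chr (toSet X)) (chr (opSet r X))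

/-- Condition (ii) at `X`: every `Y ≡_T X` has `W_r^Y ≡_T W_r^X`. -/
def InvariantAt (r : Code) (X : ℕ → Bool) : Prop :=
  ∀ Y : ℕ → Bool, SameDegree (toSet Y) (toSet X) → SameDegree (opSet r Y) (opSet r X)

/-- The join `X ⊕ Y`. -/
def join (X Y : ℕ → Bool) : ℕ → Bool := fun n => if n % 2 = 0 then X (n / 2) else Y (n / 2)

open Classical in
/-- The join `A ⊕ Y` of a set and a sequence, as a set. -/
noncomputable def setJoin (A : Set ℕ) (Y : ℕ → Bool) : Set ℕ :=
  toSet (join (fun n => decide (n ∈ A)) Y)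

/-- The fair coin measure on infinite binary sequences. -/
noncomputable def coin : Measure (ℕ → Bool) :=
  Measure.infinitePi fun _ : ℕ => (PMF.uniformOfFintype Bool).toMeasure

theorem chr_toSet (X : ℕ → Bool) : chr (toSet X) = chi X := chr_eq_chi fun _ => Iff.rfl

theorem chr_opSet (r : Code) (X : ℕ → Bool) : chr (opSet r X) = chi (RJ.op r X) :=
  chr_eq_chi fun _ => RJ.op_iff.symm

theorem sameDegree_toSet {X Y : ℕ → Bool} :
    SameDegree (toSet X) (toSet Y) ↔ RJ.Teq X Y := by
  rw [SameDegree, chr_toSet, chr_toSet, RJ.Teq]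

/-- Functions: let `f` be a measurable function on infinite binary sequences such that for almost
every `X` we have `X ≤_T f X`, and `f Y ≡_T f X` for all `Y ≡_T X`. Then
`f (X ⊕ Y) ≡_T f X ⊕ Y` for almost every pair `(X, Y)`. -/
theorem functions (f : (ℕ → Bool) → (ℕ → Bool)) (hf : Measurable f)
    (h1 : ∀ᵐ X ∂coin, TuringReducible (chr (toSet X)) (chr (toSet (f X))))
    (h2 : ∀ᵐ X ∂coin, ∀ Y, SameDegree (toSet Y) (toSet X) →
      SameDegree (toSet (f Y)) (toSet (f X))) :
    ∀ᵐ p ∂(coin.prod coin), SameDegree (toSet (f (join p.1 p.2))) (toSet (join (f p.1) p.2)) := by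
  have h := RJ.main_fun hf (by filter_upwards [h1] with x hx; rwa [chr_toSet, chr_toSet] at hx)
    (by filter_upwards [h2] with x hx y hy
        exact sameDegree_toSet.1 (hx y (sameDegree_toSet.2 hy)))
  filter_upwards [h] with p hp
  exact sameDegree_toSet.2 hp

/-- Operators: if `X ↦ W_r^(P ⊕ X)` is above the identity and degree invariant at almost every
`X`, then `W_r^((P ⊕ X) ⊕ Y) ≡_T W_r^(P ⊕ X) ⊕ Y` for almost every pair `(X, Y)`. -/
theorem operators (r : Code) (P : ℕ → Bool) (h1 : ∀ᵐ X ∂coin, AboveAt r (join P X))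
    (h2 : ∀ᵐ X ∂coin, InvariantAt r (join P X)) :
    ∀ᵐ p ∂(coin.prod coin), SameDegree (opSet r (join (join P p.1) p.2))
      (setJoin (opSet r (join P p.1)) p.2) := by
  have h := RJ.main_op r P
    (by filter_upwards [h1] with x hx
        rw [AboveAt, chr_toSet, chr_opSet] at hx
        exact hx)
    (by filter_upwards [h2] with x hx y hy
        have h3 := hx y (sameDegree_toSet.2 hy)
        rwa [SameDegree, chr_opSet, chr_opSet] at h3)
  filter_upwards [h] with p hp
  rw [SameDegree, setJoin, chr_toSet, chr_opSet]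
  exact hp

/-- Condition (i) at `X`: `X <_T W_r^X <_T X'`. -/
def SolvesPostAt (r : Code) (X : ℕ → Bool) : Prop :=
  TuringReducible (chr (toSet X)) (chr (opSet r X)) ∧
  ¬ TuringReducible (chr (opSet r X)) (chr (toSet X)) ∧
  TuringReducible (chr (opSet r X)) (chr (jumpSet X)) ∧
  ¬ TuringReducible (chr (jumpSet X)) (chr (opSet r X))

/-- Generic joins: if `W_r` satisfies (i) on the cone above `Q`, then for every set `A` we have
`W_r^(Q ⊕ Y) ≢_T A ⊕ Y` for comeager many `Y`. -/
theorem generic (r : Code) (Q : ℕ → Bool)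
    (h : ∀ X, TuringReducible (chr (toSet Q)) (chr (toSet X)) → SolvesPostAt r X) (A : Set ℕ) :
    ∀ᶠ Y in residual (ℕ → Bool), ¬ SameDegree (opSet r (join Q Y)) (setJoin A Y) := by
  have hc : ∀ Y, SolvesPostAt r (join Q Y) := by
    intro Y
    refine h _ ?_
    rw [chr_toSet, chr_toSet]
    exact AEI.left_le_jn Q Y
  have h1 := RJ.main_generic' r (Q := Q)
    (fun Y => by have := (hc Y).1; rwa [chr_toSet, chr_opSet] at this)
    (fun Y => by have := (hc Y).2.1; rwa [chr_toSet, chr_opSet] at this)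
    (fun Y => by have := (hc Y).2.2.2; rwa [AEI.chr_jumpSet, chr_opSet] at this)
    (fun n => @decide (n ∈ A) (Classical.propDecidable _))
  filter_upwards [h1] with Y hY hT
  refine hY ?_
  rw [SameDegree, setJoin, chr_toSet, chr_opSet] at hT
  exact hT

/-- Degree invariant solutions and joins. (1) Let `f` be a measurable function on infinite binary
sequences with `X ≤_T f X` for almost every `X` which is degree invariant at almost every `X`.
Then `f (X ⊕ Y) ≡_T f X ⊕ Y` for almost every pair `(X, Y)`. (2) Let `W_r` satisfy (i) and (ii)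
on the cone above `P₀`, and let `P ≥_T P₀`. Then almost every `X` is such that, for `Q = P ⊕ X`,
we have `W_r^(Q ⊕ Y) ≡_T W_r^Q ⊕ Y` for almost every `Y`, while for every set `A` we have
`W_r^(Q ⊕ Y) ≢_T A ⊕ Y` for comeager many `Y`. -/
theorem result :
    (∀ f : (ℕ → Bool) → (ℕ → Bool), Measurable f →
      (∀ᵐ X ∂coin, TuringReducible (chr (toSet X)) (chr (toSet (f X)))) →
      (∀ᵐ X ∂coin, ∀ Y, SameDegree (toSet Y) (toSet X) →
        SameDegree (toSet (f Y)) (toSet (f X))) →
      ∀ᵐ p ∂(coin.prod coin),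
        SameDegree (toSet (f (join p.1 p.2))) (toSet (join (f p.1) p.2))) ∧
    (∀ (r : Code) (P₀ : ℕ → Bool),
      (∀ X, TuringReducible (chr (toSet P₀)) (chr (toSet X)) →
        SolvesPostAt r X ∧ InvariantAt r X) →
      ∀ P, TuringReducible (chr (toSet P₀)) (chr (toSet P)) → ∀ᵐ X ∂coin,
        (∀ᵐ Y ∂coin, SameDegree (opSet r (join (join P X) Y))
          (setJoin (opSet r (join P X)) Y)) ∧
        ∀ A : Set ℕ, ∀ᶠ Y in residual (ℕ → Bool),
          ¬ SameDegree (opSet r (join (join P X) Y)) (setJoin A Y)) := by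
  refine ⟨functions, fun r P₀ h P hP => ?_⟩
  have hc : ∀ X, TuringReducible (chr (toSet P₀)) (chr (toSet (join P X))) := by
    intro X
    rw [chr_toSet] at hP ⊢
    rw [chr_toSet] at hP ⊢
    exact hP.trans (AEI.left_le_jn P X)
  have h1 := operators r P (Filter.Eventually.of_forall fun X => (h _ (hc X)).1.1)
    (Filter.Eventually.of_forall fun X => (h _ (hc X)).2)
  have h1' : ∀ᵐ p ∂(AEI.coin.prod AEI.coin), SameDegree (opSet r (join (join P p.1) p.2))
      (setJoin (opSet r (join P p.1)) p.2) := h1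
  have h2 : ∀ᵐ X ∂AEI.coin, ∀ᵐ Y ∂AEI.coin, SameDegree (opSet r (join (join P X) Y))
      (setJoin (opSet r (join P X)) Y) := Measure.ae_ae_of_ae_prod h1'
  filter_upwards [h2] with X hX
  refine ⟨hX, generic r (join P X) fun Z hZ => (h Z ?_).1⟩
  exact (hc X).trans hZ

end Pool.Agent.Results.MP_57825d_lc.RandomJoins
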